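import Pool.Agent.H8.KS6.BoxR
import Pool.Agent.H7.KSAT.SL
import Pool.Agent.H83.OCG.Time2
import Pool.Agent.H59.OC.One

/-!
# The family with the time rounded to `R` digits (helper17)

`F.cot R` has the same lines and the same side information, the time is rounded down to the first
`R` digits. Labels of windows `w ≤ R` are the same.
-/

set_option autoImplicit false

namespace Pool.KA

open Finset Real
open Pool.Agent.H49.Ent Pool.Agent.H32.Dense Pool.STK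

variable {m J : ℕ}

/-- The time rounded down to `R` digits. -/
def Fam.cot (F : Fam m J) (R : ℕ) : Fam m J where
  Ω := F.Ω
  ζ := F.ζ
  fin := F.fin
  p := F.p
  u := F.u
  d := F.d
  T := fun ω => 2 ^ (J - R) * (F.T ω / 2 ^ (J - R))
  Z := F.Z
  isLaw := F.isLaw
  dir := F.dir
  tim := fun ω => (Nat.mul_div_le _ _).trans_lt (F.tim ω)

namespace Cot

variable (F : Fam m J) {R w i k' : ℕ}

theorem T_eq (R : ℕ) (ω : F.Ω) : (F.cot R).T ω = 2 ^ (J - R) * (F.T ω / 2 ^ (J - R)) := rfl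

theorem T_eq1 (R : ℕ) (ω : F.Ω) : (F.cot R).T ω = 2 ^ (J - R) * F.T1 R ω := rfl

@[simp] theorem p_eq (R : ℕ) : (F.cot R).p = F.p := rfl
@[simp] theorem u_eq (R : ℕ) : (F.cot R).u = F.u := rfl
@[simp] theorem d_eq (R : ℕ) : (F.cot R).d = F.d := rfl
@[simp] theorem Z_eq (R : ℕ) : (F.cot R).Z = F.Z := rfl
@[simp] theorem l_eq (R : ℕ) : (F.cot R).l = F.l := rfl
@[simp] theorem D_eq (R j : ℕ) : (F.cot R).D j = F.D j := rfl
@[simp] theorem L_eq (R j : ℕ) : (F.cot R).L j = F.L j := rfl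

theorem div_pow (h : w ≤ R) (n : ℕ) : 2 ^ (J - R) * n / 2 ^ (J - w) = n / 2 ^ (J - w - (J - R)) := by
  have e : J - w = (J - R) + (J - w - (J - R)) := by omega
  have h0 : 0 < 2 ^ (J - R) := by positivity
  conv_lhs => rw [e, pow_add, Nat.mul_div_mul_left _ _ h0]

theorem mod_pow (h : w ≤ R) (n : ℕ) :
    2 ^ (J - R) * n % 2 ^ (J - w) = 2 ^ (J - R) * (n % 2 ^ (J - w - (J - R))) := by
  have e : J - w = (J - R) + (J - w - (J - R)) := by omega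
  conv_lhs => rw [e, pow_add, Nat.mul_mod_mul_left]

/-- The windows are the same. -/
theorem T1_eq (h : w ≤ R) (ω : F.Ω) : (F.cot R).T1 w ω = F.T1 w ω := by
  show 2 ^ (J - R) * (F.T ω / 2 ^ (J - R)) / 2 ^ (J - w) = F.T ω / 2 ^ (J - w)
  rw [div_pow h, Nat.div_div_eq_div_mul, ← pow_add]
  congr 2
  omega

theorem T1_fun (h : w ≤ R) : (F.cot R).T1 w = F.T1 w := funext fun ω => T1_eq F h ω

/-- The positions at the beginning of the windows are the same. -/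
theorem x1_eq (h : w ≤ R) (ω : F.Ω) : (F.cot R).x1 w ω = F.x1 w ω := by
  funext i
  show F.u ω i + ((F.cot R).T1 w ω : ℝ) / 2 ^ w * F.d ω i = F.u ω i + (F.T1 w ω : ℝ) / 2 ^ w * F.d ω i
  rw [T1_eq F h ω]

theorem x1_fun (h : w ≤ R) : (F.cot R).x1 w = F.x1 w := funext fun ω => x1_eq F h ω

theorem slam_fun (h : w ≤ R) : Pool.KSAT.slam (F.cot R) w = Pool.KSAT.slam F w := by
  funext ω
  show (F.l ω, F.Z ω, (F.cot R).T1 w ω) = (F.l ω, F.Z ω, F.T1 w ω)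
  rw [T1_eq F h ω]

theorem mps_fun (h : w ≤ R) (k : Fin m → ℕ) (M : F.Ω → Fin m → Fin m → ℝ) :
    (F.cot R).mps w k M = F.mps w k M := by
  funext ω
  show flk k (mco (M ω) ((F.cot R).x1 w ω)) = flk k (mco (M ω) (F.x1 w ω))
  rw [x1_eq F h ω]

/-- The labels of boxes are the same. -/
theorem mlb_fun (h : w ≤ R) (k c : Fin m → ℕ) (M : F.Ω → Fin m → Fin m → ℝ) :
    (F.cot R).mlb w k c M = F.mlb w k c M := by
  funext ω
  show ((((F.cot R).T1 w ω, M ω), ((F.cot R).mps w k M ω, (F.cot R).mvl c M ω)), F.Z ω) =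
    (((F.T1 w ω, M ω), (F.mps w k M ω, F.mvl c M ω)), F.Z ω)
  rw [T1_eq F h ω, mps_fun F h k M]
  rfl

theorem blb_fun (h : w ≤ R) (c : Fin m → ℕ) (M : F.Ω → Fin m → Fin m → ℝ) :
    (F.cot R).blb w c M = F.blb w c M := mlb_fun F h _ c M

theorem mu_fun (h : w ≤ R) (k : Fin m → ℕ) (M : F.Ω → Fin m → Fin m → ℝ) :
    (F.cot R).mu w k M = F.mu w k M := by
  funext ω i
  show Int.fract (2 ^ k i * mco (M ω) ((F.cot R).x1 w ω) i) =
    Int.fract (2 ^ k i * mco (M ω) (F.x1 w ω) i)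
  rw [x1_eq F h ω]

theorem md_fun (R : ℕ) (c : Fin m → ℕ) (M : F.Ω → Fin m → Fin m → ℝ) :
    (F.cot R).md c M = F.md c M := rfl

theorem mvl_fun (R : ℕ) (c : Fin m → ℕ) (M : F.Ω → Fin m → Fin m → ℝ) :
    (F.cot R).mvl c M = F.mvl c M := rfl

theorem c_fun (h : w ≤ R) : (F.cot R).c w = F.c w := by
  funext ω
  show (((F.cot R).T1 w ω, fl w ((F.cot R).x1 w ω)), F.Z ω) = ((F.T1 w ω, fl w (F.x1 w ω)), F.Z ω)
  rw [T1_eq F h ω, x1_eq F h ω]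

/-- The time is the beginning of the window. -/
theorem t_eq (hR : R ≤ J) (ω : F.Ω) : (F.cot R).t ω = (F.T1 R ω : ℝ) / 2 ^ R := by
  unfold Fam.t
  rw [T_eq1]
  push_cast
  have e : (2 : ℝ) ^ J = 2 ^ (J - R) * 2 ^ R := by
    rw [← pow_add]
    congr 1
    omega
  rw [e, mul_div_mul_left _ _ (by positivity)]

/-- The position is the position at the beginning of the window. -/
theorem x_eq (hR : R ≤ J) (ω : F.Ω) : (F.cot R).x ω = F.x1 R ω := by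
  funext i
  unfold Fam.x Fam.x1
  rw [t_eq F hR ω]
  rfl

theorem mod_eq (hw : w ≤ R) (hR : R ≤ J) (ω : F.Ω) :
    (F.cot R).T ω % 2 ^ (J - w) = 2 ^ (J - R) * (F.T ω % 2 ^ (J - w) / 2 ^ (J - R)) := by
  have e1 : J - w - (J - R) = R - w := by omega
  have e2 : J - w = (J - R) + (R - w) := by omega
  have h1 : (F.cot R).T ω % 2 ^ (J - w) = 2 ^ (J - R) * (F.T ω / 2 ^ (J - R) % 2 ^ (R - w)) := by
    rw [T_eq, mod_pow hw, e1]
  have h2 : F.T ω / 2 ^ (J - R) % 2 ^ (R - w) = F.T ω % 2 ^ (J - w) / 2 ^ (J - R) := by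
    rw [e2, pow_add, Nat.mod_mul_right_div_self]
  rw [h1, h2]

/-- The time in the window is rounded down to `R - w` digits. -/
theorem wt_eq (hw : w ≤ R) (hR : R ≤ J) (ω : F.Ω) :
    (F.cot R).wt w ω = (⌊(2 : ℝ) ^ (R - w) * F.wt w ω⌋ : ℝ) / 2 ^ (R - w) := by
  have e2 : (2 : ℝ) ^ (J - w) = 2 ^ (J - R) * 2 ^ (R - w) := by
    rw [← pow_add]
    congr 1
    omega
  have h3 : (⌊(2 : ℝ) ^ (R - w) * F.wt w ω⌋ : ℤ) =
      ((F.T ω % 2 ^ (J - w) / 2 ^ (J - R) : ℕ) : ℤ) := by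
    unfold Fam.wt
    have e3 : (2 : ℝ) ^ (R - w) * (((F.T ω % 2 ^ (J - w) : ℕ) : ℝ) / 2 ^ (J - w)) =
        ((F.T ω % 2 ^ (J - w) : ℕ) : ℝ) / ((2 ^ (J - R) : ℕ) : ℝ) := by
      rw [e2]
      generalize ((F.T ω % 2 ^ (J - w) : ℕ) : ℝ) = y
      push_cast
      field_simp
    rw [e3, ← Int.natCast_floor_eq_floor (by positivity), Nat.floor_div_eq_div]
  rw [h3]
  unfold Fam.wt
  rw [mod_eq F hw hR, e2]
  generalize F.T ω % 2 ^ (J - w) / 2 ^ (J - R) = y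
  push_cast
  field_simp

/-! ### Near samples -/

/-- Points whose rounded values are near are near. -/
theorem near_of {N j : ℕ} (h : j ≤ N) {x y : ℝ}
    (hxy : |(⌊(2 : ℝ) ^ N * x⌋ : ℝ) / 2 ^ N - (⌊(2 : ℝ) ^ N * y⌋ : ℝ) / 2 ^ N| <
      (2 : ℝ) ^ (-(j : ℤ))) : |x - y| < (2 : ℝ) ^ (-(j : ℤ)) := by
  have hN : (0 : ℝ) < 2 ^ N := by positivity
  have e : (2 : ℝ) ^ N * (2 : ℝ) ^ (-(j : ℤ)) = ((2 ^ (N - j) : ℕ) : ℝ) := by
    rw [zpow_neg, zpow_natCast, ← div_eq_mul_inv, div_eq_iff (by positivity)]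
    push_cast
    rw [← pow_add]
    congr 1
    omega
  have h1 : |((⌊(2 : ℝ) ^ N * x⌋ - ⌊(2 : ℝ) ^ N * y⌋ : ℤ) : ℝ)| < ((2 ^ (N - j) : ℕ) : ℝ) := by
    rw [← e, ← div_lt_iff₀' hN, ← abs_of_pos hN, ← abs_div, abs_of_pos hN]
    push_cast
    rwa [sub_div]
  have h2 : |⌊(2 : ℝ) ^ N * x⌋ - ⌊(2 : ℝ) ^ N * y⌋| + 1 ≤ ((2 ^ (N - j) : ℕ) : ℤ) := by
    have : |⌊(2 : ℝ) ^ N * x⌋ - ⌊(2 : ℝ) ^ N * y⌋| < ((2 ^ (N - j) : ℕ) : ℤ) := by
      exact_mod_cast h1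
    omega
  have h3 : |((⌊(2 : ℝ) ^ N * x⌋ - ⌊(2 : ℝ) ^ N * y⌋ : ℤ) : ℝ)| + 1 ≤ ((2 ^ (N - j) : ℕ) : ℝ) := by
    exact_mod_cast h2
  have h4 : |(2 : ℝ) ^ N * (x - y)| <
      |((⌊(2 : ℝ) ^ N * x⌋ - ⌊(2 : ℝ) ^ N * y⌋ : ℤ) : ℝ)| + 1 := by
    push_cast
    have a1 := Int.floor_le ((2 : ℝ) ^ N * x)
    have a2 := Int.lt_floor_add_one ((2 : ℝ) ^ N * x)
    have a3 := Int.floor_le ((2 : ℝ) ^ N * y)
    have a4 := Int.lt_floor_add_one ((2 : ℝ) ^ N * y)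
    have a5 := le_abs_self ((⌊(2 : ℝ) ^ N * x⌋ : ℝ) - ⌊(2 : ℝ) ^ N * y⌋)
    have a6 := neg_abs_le ((⌊(2 : ℝ) ^ N * x⌋ : ℝ) - ⌊(2 : ℝ) ^ N * y⌋)
    rw [mul_sub, abs_lt]
    constructor <;> linarith
  rw [abs_mul, abs_of_pos hN] at h4
  have h5 := h4.trans_le h3
  rw [← e] at h5
  exact lt_of_mul_lt_mul_left h5 hN.le

/-- Near points have near rounded values. -/
theorem near_to {N j : ℕ} (h : j + 1 ≤ N) {x y : ℝ} (hxy : |x - y| < (2 : ℝ) ^ (-((j : ℤ) + 1))) :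
    |(⌊(2 : ℝ) ^ N * x⌋ : ℝ) / 2 ^ N - (⌊(2 : ℝ) ^ N * y⌋ : ℝ) / 2 ^ N| <
      (2 : ℝ) ^ (-(j : ℤ)) := by
  have hN : (0 : ℝ) < 2 ^ N := by positivity
  have e : (2 : ℝ) ^ N * (2 : ℝ) ^ (-((j : ℤ) + 1)) = (2 : ℝ) ^ (N - (j + 1)) := by
    have : (-((j : ℤ) + 1)) = -((j + 1 : ℕ) : ℤ) := by push_cast; ring
    rw [this, zpow_neg, zpow_natCast, ← div_eq_mul_inv, div_eq_iff (by positivity), ← pow_add]
    congr 1
    omega
  have e' : (2 : ℝ) ^ N * (2 : ℝ) ^ (-(j : ℤ)) = 2 * (2 : ℝ) ^ (N - (j + 1)) := by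
    rw [← e, neg_add, zpow_add₀ two_ne_zero]
    norm_num
    ring
  have h0 : (1 : ℝ) ≤ (2 : ℝ) ^ (N - (j + 1)) := one_le_pow₀ one_le_two
  have h1 : |(2 : ℝ) ^ N * (x - y)| < (2 : ℝ) ^ (N - (j + 1)) := by
    rw [abs_mul, abs_of_pos hN, ← e]
    exact mul_lt_mul_of_pos_left hxy hN
  rw [← sub_div, abs_div, abs_of_pos hN, div_lt_iff₀' hN, e']
  have a1 := Int.floor_le ((2 : ℝ) ^ N * x)
  have a2 := Int.lt_floor_add_one ((2 : ℝ) ^ N * x)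
  have a3 := Int.floor_le ((2 : ℝ) ^ N * y)
  have a4 := Int.lt_floor_add_one ((2 : ℝ) ^ N * y)
  rw [mul_sub, abs_lt] at h1
  rw [abs_lt]
  constructor <;> linarith [h1.1, h1.2]

theorem tl_eq (h : w + i ≤ R) (hR : R ≤ J) (ω : F.Ω) :
    Pool.OCG.tl ((F.cot R).wt w) i ω = Pool.OCG.tl (F.wt w) i ω := by
  unfold Pool.OCG.tl
  rw [wt_eq F (by omega) hR ω]
  have e : (2 : ℝ) ^ i * ((⌊(2 : ℝ) ^ (R - w) * F.wt w ω⌋ : ℝ) / 2 ^ (R - w)) =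
      ((⌊(2 : ℝ) ^ (R - w) * F.wt w ω⌋ : ℤ) : ℝ) / ((2 ^ (R - w - i) : ℕ) : ℝ) := by
    have e1 : (2 : ℝ) ^ (R - w) = 2 ^ i * 2 ^ (R - w - i) := by
      rw [← pow_add]
      congr 1
      omega
    generalize (⌊(2 : ℝ) ^ (R - w) * F.wt w ω⌋ : ℤ) = z
    rw [e1]
    push_cast
    field_simp
  rw [e, Int.floor_div_natCast, Int.floor_intCast]
  have := Pool.K2S.Uni.floor_row (show i ≤ R - w by omega) (F.wt w ω)
  exact_mod_cast this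

theorem kp_eq {Λ : Type} (h : w + i ≤ R) (hR : R ≤ J) (L : F.Ω → Λ) :
    Pool.OCG.kp L ((F.cot R).wt w) i = Pool.OCG.kp L (F.wt w) i := by
  funext ω
  show (L ω, Pool.OCG.tl ((F.cot R).wt w) i ω) = (L ω, Pool.OCG.tl (F.wt w) i ω)
  rw [tl_eq F h hR ω]

/-- Near samples of the rounded time are near samples of the time. -/
theorem nr_le {Λ : Type} (h : w + i + k' ≤ R) (hR : R ≤ J) {p : F.Ω → ℝ} (hp : ∀ ω, 0 ≤ p ω)
    (L : F.Ω → Λ) :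
    Pool.OCG.nr p L ((F.cot R).wt w) k' i ≤ Pool.OCG.nr p L (F.wt w) k' i := by
  unfold Pool.OCG.nr
  rw [kp_eq F (by omega) hR L]
  refine Pool.OCG.Pr_mono' (fun z => glue_nonneg hp hp z) fun z _ hz => ?_
  have hz' : |(F.cot R).wt w z.2 - (F.cot R).wt w z.1| < (2 : ℝ) ^ (-((i : ℤ) + k')) := hz
  rw [wt_eq F (by omega) hR, wt_eq F (by omega) hR] at hz'
  have e : (-((i : ℤ) + k')) = -((i + k' : ℕ) : ℤ) := by push_cast; ring
  show |F.wt w z.2 - F.wt w z.1| < (2 : ℝ) ^ (-((i : ℤ) + k'))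
  rw [e] at hz' ⊢
  exact near_of (by omega) hz'

/-- Near samples of the time are near samples of the rounded time, one digit less. -/
theorem le_nr {Λ : Type} (h : w + i + k' + 1 ≤ R) (hR : R ≤ J) {p : F.Ω → ℝ}
    (hp : ∀ ω, 0 ≤ p ω) (L : F.Ω → Λ) :
    Pool.OCG.nr p L (F.wt w) (k' + 1) i ≤ Pool.OCG.nr p L ((F.cot R).wt w) k' i := by
  unfold Pool.OCG.nr
  rw [kp_eq F (by omega) hR L]
  refine Pool.OCG.Pr_mono' (fun z => glue_nonneg hp hp z) fun z _ hz => ?_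
  have hz' : |F.wt w z.2 - F.wt w z.1| < (2 : ℝ) ^ (-((i : ℤ) + (k' + 1 : ℕ))) := hz
  show |(F.cot R).wt w z.2 - (F.cot R).wt w z.1| < (2 : ℝ) ^ (-((i : ℤ) + k'))
  rw [wt_eq F (by omega) hR, wt_eq F (by omega) hR]
  have e : (-((i : ℤ) + k')) = -((i + k' : ℕ) : ℤ) := by push_cast; ring
  have e' : (-((i : ℤ) + (k' + 1 : ℕ))) = -(((i + k' : ℕ) : ℤ) + 1) := by push_cast; ring
  rw [e]
  rw [e'] at hz'
  exact near_to (by omega) hz'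

/-- The form with one digit less. -/
theorem nr_succ_le {Λ : Type} (h : w + i + k' + 1 ≤ R) (hR : R ≤ J) {p : F.Ω → ℝ}
    (hp : ∀ ω, 0 ≤ p ω) (L : F.Ω → Λ) :
    Pool.OCG.nr p L ((F.cot R).wt w) (k' + 1) i ≤ Pool.OCG.nr p L (F.wt w) k' i := by
  refine le_trans (nr_le F (k' := k' + 1) (by omega) hR hp L) ?_
  unfold Pool.OCG.nr
  refine Pool.OCG.Pr_mono' (fun z => glue_nonneg hp hp z) fun z _ hz => ?_
  have hz' : |F.wt w z.2 - F.wt w z.1| < (2 : ℝ) ^ (-((i : ℤ) + (k' + 1 : ℕ))) := hz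
  show |F.wt w z.2 - F.wt w z.1| < (2 : ℝ) ^ (-((i : ℤ) + k'))
  refine hz'.trans_le (zpow_le_zpow_right₀ one_le_two ?_)
  push_cast
  omega

end Cot

end Pool.KA
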